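import Mathlib
import Pool.Agent.Work.MP_671ba1_h15.Defs

/-!
# Submanifolds of `(P^1)^4`: definitions

The manifolds, symplectic forms and projective embeddings are those of
`Pool.Agent.Work.MP_671ba1_h15.Defs` (helper15).  Here: the symplectic forms on one fixed manifold,
compatible almost complex structures, complete intersections in `(P^1)^4` and their Chern numbers.
-/

open scoped Manifold ContDiff Topology LinearAlgebra.Projectivization
open CategoryTheory Pool.Agent.Work.MP_671ba1_h15

namespace Pool.Agent.Work.MP_671ba1_h54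

/-- An integral symplectic form on the closed simply connected 6-manifold `X`. -/
structure SympForm (X : Man 6) : Type where
  /-- the form -/
  form : Forms X
  nondeg : Nondeg form
  smooth : Smooth form
  closed : Closed form
  integral : ∀ g, Sphere g → ∃ n : ℤ, area form g = n

/-- the symplectic manifold `X` with the form `w` -/
def SympForm.toSym6 {X : Man 6} (w : SympForm X) : Sym6 :=
  ⟨X, w.form, w.nondeg, w.smooth, w.closed, w.integral⟩

/-- the value of the form at `x` on the tangent vectors `u`, `v` -/
def SympForm.val {X : Man 6} (w : SympForm X) (x : X.carrier) (u v : E 6) : ℝ := w.form x u v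

/-- an endomorphism of each tangent space (the tangent space at `x` is identified with the model space
by the preferred chart at `x`) -/
abbrev Endos (X : Man 6) : Type := X.carrier → E 6 →ₗ[ℝ] E 6

/-- the value of the endomorphism at `x` on the tangent vector `v` -/
def app {X : Man 6} (J : Endos X) (x : X.carrier) (v : E 6) : E 6 := J x v

/-- `J` is an almost complex structure: `J ^ 2 = -1`. -/
def ACS {X : Man 6} (J : Endos X) : Prop := ∀ x v, app J x (app J x v) = -v

/-- The form `w` is invariant under `J`. -/
def Inv {X : Man 6} (J : Endos X) (w : SympForm X) : Prop :=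
  ∀ x u v, w.val x (app J x u) (app J x v) = w.val x u v

/-- `J` is an almost complex structure compatible with the form `w`: `w` is invariant under `J` and
`w(v, Jv) > 0` for every tangent vector `v ≠ 0`. -/
def Compatible {X : Man 6} (J : Endos X) (w : SympForm X) : Prop :=
  ACS J ∧ Inv J w ∧ ∀ x v, v ≠ 0 → 0 < w.val x v (app J x v)

section Embed

variable {n : ℕ} {M : Man n}

/-- `p` is a smooth embedding of `M` in `(P^1)^4`: injective, with local smooth lifts whose derivatives
are jointly injective modulo the lifts. -/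
def Embedding4 (p : Fin 4 → M.carrier → PP 2) : Prop :=
  (∀ x y, (∀ j, p j x = p j y) → x = y) ∧ ∀ x₀, ∃ s : Fin 4 → M.carrier → V 2,
    (∀ j, IsLift (p j) x₀ (s j)) ∧
    ∀ v : E n, v ≠ 0 → ∃ j, ∀ c : ℂ, der (s j) x₀ v ≠ c • s j x₀

/-- the value of the polynomial `P` in the variables `z_{j,0}, z_{j,1}`, `j = 0, .., 3` -/
noncomputable def value (P : MvPolynomial (Fin 4 × Fin 2) ℂ) (z : Fin 4 → V 2) : ℂ :=
  MvPolynomial.eval (fun i => z i.1 i.2) P

/-- `P` is homogeneous of degree `d j` in the variables `z_{j,0}, z_{j,1}`, for each `j`. -/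
def MultiHom (P : MvPolynomial (Fin 4 × Fin 2) ℂ) (d : Fin 4 → ℕ) : Prop :=
  ∀ j, MvPolynomial.IsWeightedHomogeneous (fun i : Fin 4 × Fin 2 => if i.1 = j then 1 else 0) P (d j)

/-- `p` is a smooth embedding of `M` in `(P^1)^4` whose image is the set of the common zeros of
multihomogeneous polynomials `P i` of multidegrees `D i`; at each common zero the differentials of the
`P i` are linearly independent. -/
def CIEmb4 {r : ℕ} (D : Fin r → Fin 4 → ℕ) (p : Fin 4 → M.carrier → PP 2) : Prop :=
  Embedding4 p ∧ ∃ P : Fin r → MvPolynomial (Fin 4 × Fin 2) ℂ, (∀ i, MultiHom (P i) (D i)) ∧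
    (∀ z : Fin 4 → V 2, (∀ j, z j ≠ 0) → (∀ i, value (P i) z = 0) →
      LinearIndependent ℂ fun i => fun l => value (MvPolynomial.pderiv l (P i)) z) ∧
    ∀ (z : Fin 4 → V 2) (hz : ∀ j, z j ≠ 0),
      (∃ x, ∀ j, p j x = Projectivization.mk ℂ (z j) (hz j)) ↔ ∀ i, value (P i) z = 0

end Embed

/-- `J` is multiplication by `i` at `x` in terms of the lift `s`. -/
def MulI {X : Man 6} (J : Endos X) (x : X.carrier) (s : X.carrier → V 2) : Prop :=
  ∀ v : E 6, ∃ c : ℂ, der s x (app J x v) = Complex.I • der s x v + c • s x

/-- `J` is the complex structure of the complex submanifold `p X` of `(P^1)^4`: it is multiplication by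
`i` in terms of the lifts. -/
def Hol {X : Man 6} (J : Endos X) (p : Fin 4 → X.carrier → PP 2) : Prop :=
  ACS J ∧ ∀ x j s, IsLift (p j) x s → MulI J x s

/-- the Fubini-Study form (normalized: the projective line has area 1), in terms of a lift -/
noncomputable def FS {X : Man 6} (s : X.carrier → V 2) (x : X.carrier) (u v : E 6) : ℝ :=
  (fs (s x) (der s x u) (der s x v)).im / Real.pi

/-- A closed simply connected 6-manifold `X` with the complex structure `J` of a smooth hypersurface of
multidegree `(2, 2, 2, 2)` in `(P^1)^4` (a Calabi-Yau threefold), embedded by `p`. -/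
structure Threefold : Type 1 where
  /-- the manifold -/
  X : Man 6
  /-- the complex structure -/
  J : Endos X
  /-- the embedding -/
  p : Fin 4 → X.carrier → PP 2
  emb : CIEmb4 ![fun _ => 2] p
  hol : Hol J p

/-- the integral symplectic forms on `T` -/
abbrev Threefold.Sf (T : Threefold) : Type := SympForm T.X

/-- `w` is the restriction to `T` of the sum of `h j` times the Fubini-Study form of the `j`-th factor
(normalized: the factors have area 1). -/
def IsRestr (T : Threefold) (h : Fin 4 → ℕ) (w : T.Sf) : Prop :=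
  ∀ x (s : Fin 4 → T.X.carrier → V 2), (∀ j, IsLift (T.p j) x (s j)) → ∀ u v : E 6,
    w.val x u v = ∑ j, h j * FS (s j) x u v

/-- `Y` is diffeomorphic to a smooth complete intersection surface of multidegrees `(2, 2, 2, 2)` and
`h` in `(P^1)^4`. -/
def IsSurf (Y : Man 4) (h : Fin 4 → ℕ) : Prop :=
  ∃ p : Fin 4 → Y.carrier → PP 2, CIEmb4 ![fun _ => 2, h] p

section Chern

/-- The cohomology classes of `(P^1)^4` are the polynomials in the classes `x_j` of the factors, modulo
the relations `x_j ^ 2 = 0`. -/
abbrev Ring4 : Type := MvPolynomial (Fin 4) ℚ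

/-- the class `x_j` of the `j`-th factor -/
noncomputable def cls (j : Fin 4) : Ring4 := MvPolynomial.X j

/-- the degree of a class of `(P^1)^4`: the coefficient of `x_0 x_1 x_2 x_3` (which does not change
modulo the relations `x_j ^ 2 = 0`) -/
noncomputable def deg (a : Ring4) : ℚ := MvPolynomial.coeff (∑ j, Finsupp.single j 1) a

/-- the class of a divisor of multidegree `d` -/
noncomputable def divisor (d : Fin 4 → ℕ) : Ring4 := ∑ j, (d j : Ring4) * cls j

/-- the inverse `1 - aT + a ^ 2 T ^ 2 - ...` of `1 + aT` -/
noncomputable def inv1 (a : Ring4) : PowerSeries Ring4 := PowerSeries.mk fun n => (-a) ^ n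

/-- the Chern polynomial `∏ (1 + 2 x_j T) / ((1 + aT) (1 + bT))` of a complete intersection surface of
multidegrees `(2, 2, 2, 2)` and `h` in `(P^1)^4`, `a`, `b` the classes of the two divisors -/
noncomputable def chern (h : Fin 4 → ℕ) : PowerSeries Ring4 :=
  (∏ j, (1 + PowerSeries.C (2 * cls j) * PowerSeries.X)) *
    (inv1 (divisor fun _ => 2) * inv1 (divisor h))

/-- `c₁²` of the surface -/
noncomputable def c1sq (h : Fin 4 → ℕ) : ℚ :=
  deg (PowerSeries.coeff 1 (chern h) ^ 2 * (divisor (fun _ => 2) * divisor h))

/-- `c₂` of the surface -/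
noncomputable def c2 (h : Fin 4 → ℕ) : ℚ :=
  deg (PowerSeries.coeff 2 (chern h) * (divisor (fun _ => 2) * divisor h))

end Chern

/-- the greatest common divisor of the entries -/
def content (h : Fin 4 → ℕ) : ℕ := Finset.univ.gcd h

/-- all entries are positive -/
def Pos (h : Fin 4 → ℕ) : Prop := ∀ j, 0 < h j

/-- For the classes `H i`, and for every `k`: the surfaces of degree `k H i` have the same Chern
numbers, and the greatest common divisors of the entries of `k H i` are `k m i`. -/
def Coincide {N : ℕ} (m : Fin N → ℕ) (H : Fin N → Fin 4 → ℕ) : Prop :=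
  ∀ k, (∀ i, content (k • H i) = k * m i) ∧
    ∀ i j, c1sq (k • H i) = c1sq (k • H j) ∧ c2 (k • H i) = c2 (k • H j)

/-- the sets of the Donaldson hypersurfaces of each degree of each symplectic 6-manifold -/
abbrev Hyp : Type 1 := Sym6 → ℕ → Set (Man 4)

/-- The hypersurfaces of degree `k` of the symplectic manifolds `(T, w i)` are pairwise homeomorphic
and pairwise not diffeomorphic. -/
def Differ (hyp : Hyp) (T : Threefold) {N : ℕ} (w : Fin N → T.Sf) (k : ℕ) : Prop :=
  ∀ Y : Fin N → Man 4, (∀ i, Y i ∈ hyp (w i).toSym6 k) →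
    ∀ i j, Homeo (Y i) (Y j) ∧ (Diffeo (Y i) (Y j) → i = j)

/-- `F` has at most `N` members, up to diffeomorphism, in each homeomorphism type. -/
def AtMost (N : ℕ) (F : Set (Man 4)) : Prop :=
  ∀ G : Fin (N + 1) → Man 4, (∀ i, G i ∈ F) → (∀ i j, Homeo (G i) (G j)) →
    ∃ i j, i ≠ j ∧ Diffeo (G i) (G j)

/-- For infinitely many `k` no hypersurface of degree `k` of the symplectic manifold `M` is
diffeomorphic to a member of `F`. -/
def Missed (hyp : Hyp) (M : Sym6) (F : Set (Man 4)) : Prop :=
  ∀ K, ∃ k, K ≤ k ∧ ∀ Y ∈ hyp M k, ∀ Z ∈ F, ¬ Diffeo Y Z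

end Pool.Agent.Work.MP_671ba1_h54
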