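import Pool.Agent.Work.MP_671ba1_h54.Defs

/-!
# Chern numbers, and coincidences between them
-/

namespace Pool.Agent.Work.MP_671ba1_h54

open MvPolynomial

theorem coeff_zero_mul (f g : PowerSeries Ring4) : PowerSeries.coeff 0 (f * g) =
    PowerSeries.coeff 0 f * PowerSeries.coeff 0 g := by
  simp

theorem coeff_one_mul (f g : PowerSeries Ring4) : PowerSeries.coeff 1 (f * g) =
    PowerSeries.coeff 0 f * PowerSeries.coeff 1 g + PowerSeries.coeff 1 f * PowerSeries.coeff 0 g := by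
  rw [PowerSeries.coeff_mul, show Finset.HasAntidiagonal.antidiagonal (1 : ℕ) = {(0, 1), (1, 0)} from
    rfl, Finset.sum_pair (by decide)]

theorem coeff_two_mul (f g : PowerSeries Ring4) : PowerSeries.coeff 2 (f * g) =
    PowerSeries.coeff 0 f * PowerSeries.coeff 2 g + PowerSeries.coeff 1 f * PowerSeries.coeff 1 g +
      PowerSeries.coeff 2 f * PowerSeries.coeff 0 g := by
  rw [PowerSeries.coeff_mul,
    show Finset.HasAntidiagonal.antidiagonal (2 : ℕ) = {(0, 2), (1, 1), (2, 0)} from rfl,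
    Finset.sum_insert (by decide), Finset.sum_pair (by decide), add_assoc]

theorem lin_coeffs (a : Ring4) :
    PowerSeries.coeff 0 (1 + PowerSeries.C a * PowerSeries.X) = 1 ∧
    PowerSeries.coeff 1 (1 + PowerSeries.C a * PowerSeries.X) = a ∧
    PowerSeries.coeff 2 (1 + PowerSeries.C a * PowerSeries.X) = 0 := by
  refine ⟨by simp, ?_, ?_⟩
  · rw [map_add, PowerSeries.coeff_C_mul]; simp [PowerSeries.coeff_one]
  · rw [map_add, PowerSeries.coeff_C_mul]; simp [PowerSeries.coeff_one, PowerSeries.coeff_X]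

theorem inv_coeffs (a : Ring4) :
    PowerSeries.coeff 0 (inv1 a) = 1 ∧ PowerSeries.coeff 1 (inv1 a) = -a ∧
    PowerSeries.coeff 2 (inv1 a) = a ^ 2 := by
  refine ⟨?_, ?_, ?_⟩ <;> rw [inv1, PowerSeries.coeff_mk]
  · rw [pow_zero]
  · rw [pow_one]
  · rw [neg_sq]

/-- a check of the definition: `inv1 a` is the inverse of `1 + aT` -/
theorem inv1_mul (a : Ring4) : inv1 a * (1 + PowerSeries.C a * PowerSeries.X) = 1 := by
  ext n
  rw [mul_add, mul_one, ← mul_assoc, map_add]
  cases n with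
  | zero => simp [inv1]
  | succ n =>
    rw [PowerSeries.coeff_succ_mul_X, PowerSeries.coeff_mul_C, inv1, PowerSeries.coeff_mk,
      PowerSeries.coeff_mk, PowerSeries.coeff_one, if_neg (Nat.succ_ne_zero n), pow_succ, mul_neg,
      neg_add_cancel]

/-- the polynomial `4 e_2(x)` -/
noncomputable def e2 : Ring4 :=
  4 * (cls 0 * cls 1 + cls 0 * cls 2 + cls 0 * cls 3 + cls 1 * cls 2 + cls 1 * cls 3 + cls 2 * cls 3)

theorem divisor_two : (divisor fun _ => 2) = 2 * (cls 0 + cls 1 + cls 2 + cls 3) := by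
  simp only [divisor, Fin.sum_univ_four]
  push_cast
  ring

theorem chern_coeffs (h : Fin 4 → ℕ) :
    PowerSeries.coeff 1 (chern h) = -divisor h ∧
    PowerSeries.coeff 2 (chern h) = e2 + divisor h ^ 2 := by
  obtain ⟨a0, a1, a2⟩ := lin_coeffs (2 * cls 0)
  obtain ⟨b0, b1, b2⟩ := lin_coeffs (2 * cls 1)
  obtain ⟨c0, c1, c2⟩ := lin_coeffs (2 * cls 2)
  obtain ⟨d0, d1, d2⟩ := lin_coeffs (2 * cls 3)
  obtain ⟨i0, i1, i2⟩ := inv_coeffs (divisor fun _ => 2)
  obtain ⟨j0, j1, j2⟩ := inv_coeffs (divisor h)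
  rw [chern, Fin.prod_univ_four]
  refine ⟨?_, ?_⟩
  · simp only [coeff_one_mul, coeff_zero_mul, a0, a1, b0, b1, c0, c1, d0, d1, i0, i1, j0, j1]
    rw [divisor_two]
    ring
  · simp only [coeff_two_mul, coeff_one_mul, coeff_zero_mul, a0, a1, a2, b0, b1, b2, c0, c1, c2,
      d0, d1, d2, i0, i1, i2, j0, j1, j2]
    rw [divisor_two, e2]
    ring

theorem deg_eq (a : Ring4) :
    deg a = coeff 0 (pderiv 0 (pderiv 1 (pderiv 2 (pderiv 3 a)))) := by
  rw [coeff_pderiv, coeff_pderiv, coeff_pderiv, coeff_pderiv, deg, Fin.sum_univ_four]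
  simp

/-- the linear form with coefficients `a j` -/
noncomputable def lf (a : Fin 4 → ℚ) : Ring4 := ∑ j, C (a j) * X j

theorem pd_lf (a : Fin 4 → ℚ) (i : Fin 4) : pderiv i (lf a) = C (a i) := by
  simp only [lf, map_sum, pderiv_C_mul, pderiv_X]
  fin_cases i <;> simp [Pi.single_apply]

theorem coeff_lf (a : Fin 4 → ℚ) : constantCoeff (lf a) = 0 := by
  simp [lf]

/-- the degree of a product of four linear forms is the permanent -/
theorem deg_prod (a b c d : Fin 4 → ℚ) : deg (lf a * (lf b * (lf c * lf d))) =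
    a 0 * (b 1 * (c 2 * d 3 + c 3 * d 2) + b 2 * (c 1 * d 3 + c 3 * d 1) +
      b 3 * (c 1 * d 2 + c 2 * d 1)) +
    a 1 * (b 0 * (c 2 * d 3 + c 3 * d 2) + b 2 * (c 0 * d 3 + c 3 * d 0) +
      b 3 * (c 0 * d 2 + c 2 * d 0)) +
    a 2 * (b 0 * (c 1 * d 3 + c 3 * d 1) + b 1 * (c 0 * d 3 + c 3 * d 0) +
      b 3 * (c 0 * d 1 + c 1 * d 0)) +
    a 3 * (b 0 * (c 1 * d 2 + c 2 * d 1) + b 1 * (c 0 * d 2 + c 2 * d 0) +
      b 2 * (c 0 * d 1 + c 1 * d 0)) := by
  rw [deg_eq]
  simp only [pderiv_mul, pd_lf, map_add, pderiv_C, mul_zero, zero_mul, add_zero, zero_add,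
    ← constantCoeff_eq]
  simp only [map_add, map_mul, constantCoeff_C]
  ring

theorem deg_add (a b : Ring4) : deg (a + b) = deg a + deg b := by
  rw [deg, deg, deg, coeff_add]

theorem divisor_lf (h : Fin 4 → ℕ) : divisor h = lf fun j => h j := by
  simp [divisor, lf, cls]

/-- `e_3` of the entries -/
def s3 (h : Fin 4 → ℕ) : ℕ := h 0 * h 1 * h 2 + h 0 * h 1 * h 3 + h 0 * h 2 * h 3 + h 1 * h 2 * h 3

/-- `e_1` of the entries -/
def s1 (h : Fin 4 → ℕ) : ℕ := h 0 + h 1 + h 2 + h 3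

theorem c1sq_eq (h : Fin 4 → ℕ) : c1sq h = 12 * s3 h := by
  have e : (-divisor h) ^ 2 * (divisor (fun _ => 2) * divisor h) =
      lf (fun _ => 2) * (lf (fun j => h j) * (lf (fun j => h j) * lf fun j => h j)) := by
    rw [divisor_lf, divisor_lf]
    push_cast
    ring
  rw [c1sq, (chern_coeffs h).1, e, deg_prod, s3]
  push_cast
  ring

theorem cls_lf (i : Fin 4) : cls i = lf (Pi.single i 1) := by
  rw [cls, lf, Finset.sum_eq_single i, Pi.single_eq_same, map_one, one_mul]
  · intro j _ hj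
    rw [Pi.single_eq_of_ne hj, map_zero, zero_mul]
  · intro hi
    exact absurd (Finset.mem_univ i) hi

theorem c2_eq (h : Fin 4 → ℕ) : c2 h = 24 * s1 h + 12 * s3 h := by
  have e4 (i : Fin 4) : (4 : Ring4) * cls i = lf (Pi.single i 4) := by
    have h4 : (4 : Ring4) = C 4 := (map_ofNat C 4).symm
    rw [cls, lf, Finset.sum_eq_single i, Pi.single_eq_same, h4]
    · intro j _ hj
      rw [Pi.single_eq_of_ne hj, map_zero, zero_mul]
    · intro hi
      exact absurd (Finset.mem_univ i) hi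
  have e : (e2 + divisor h ^ 2) * (divisor (fun _ => 2) * divisor h) =
      lf (Pi.single 0 4) * (lf (Pi.single 1 1) * (lf (fun _ => 2) * lf fun j => h j)) +
      (lf (Pi.single 0 4) * (lf (Pi.single 2 1) * (lf (fun _ => 2) * lf fun j => h j)) +
      (lf (Pi.single 0 4) * (lf (Pi.single 3 1) * (lf (fun _ => 2) * lf fun j => h j)) +
      (lf (Pi.single 1 4) * (lf (Pi.single 2 1) * (lf (fun _ => 2) * lf fun j => h j)) +
      (lf (Pi.single 1 4) * (lf (Pi.single 3 1) * (lf (fun _ => 2) * lf fun j => h j)) +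
      (lf (Pi.single 2 4) * (lf (Pi.single 3 1) * (lf (fun _ => 2) * lf fun j => h j)) +
      lf (fun _ => 2) * (lf (fun j => h j) * (lf (fun j => h j) * lf fun j => h j))))))) := by
    rw [divisor_lf, divisor_lf, e2, ← e4, ← e4, ← e4, ← cls_lf, ← cls_lf, ← cls_lf]
    push_cast
    ring
  rw [c2, (chern_coeffs h).2, e]
  simp only [deg_add, deg_prod, s3, s1, Pi.single_apply]
  simp
  ring

/-- the number `D = 4 (u + 1) ^ 2 + 1` -/
def den (u : ℕ) : ℕ := 4 * (u + 1) ^ 2 + 1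

/-- the vector with coprime entries, `e_1 = 4 D` and `e_3 = 2 D ^ 3` -/
def vec (u : ℕ) : Fin 4 → ℕ := ![8 * (u + 1) ^ 2, 2, (2 * u + 3) ^ 2, (2 * u + 1) ^ 2]

theorem vec_pos (u : ℕ) (j : Fin 4) : 0 < vec u j := by
  fin_cases j
  · show 0 < 8 * (u + 1) ^ 2
    positivity
  · show 0 < 2
    norm_num
  · show 0 < (2 * u + 3) ^ 2
    positivity
  · show 0 < (2 * u + 1) ^ 2
    positivity

theorem s1_vec (u m : ℕ) : s1 (fun j => m * vec u j) = 4 * (m * den u) := by
  show m * (8 * (u + 1) ^ 2) + m * 2 + m * (2 * u + 3) ^ 2 + m * (2 * u + 1) ^ 2 = _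
  rw [den]
  ring

theorem s3_vec (u m : ℕ) : s3 (fun j => m * vec u j) = 2 * (m * den u) ^ 3 := by
  show m * (8 * (u + 1) ^ 2) * (m * 2) * (m * (2 * u + 3) ^ 2) +
    m * (8 * (u + 1) ^ 2) * (m * 2) * (m * (2 * u + 1) ^ 2) +
    m * (8 * (u + 1) ^ 2) * (m * (2 * u + 3) ^ 2) * (m * (2 * u + 1) ^ 2) +
    m * 2 * (m * (2 * u + 3) ^ 2) * (m * (2 * u + 1) ^ 2) = _
  rw [den]
  ring

theorem content_mul (m : ℕ) (h : Fin 4 → ℕ) : content (fun j => m * h j) = m * content h := by
  rw [content, content, Finset.gcd_mul_left]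
  simp

theorem content_vec (u : ℕ) : content (vec u) = 1 := by
  have h1 : content (vec u) ∣ 2 := by
    have : content (vec u) ∣ vec u 1 := Finset.gcd_dvd (Finset.mem_univ 1)
    exact this
  have h2 : content (vec u) ∣ (2 * u + 1) ^ 2 := by
    have : content (vec u) ∣ vec u 3 := Finset.gcd_dvd (Finset.mem_univ 3)
    exact this
  have h3 : Nat.Coprime 2 ((2 * u + 1) ^ 2) := by
    apply Nat.Coprime.pow_right
    rw [Nat.coprime_two_left]
    exact ⟨u, rfl⟩
  exact Nat.eq_one_of_dvd_coprimes h3 h1 h2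

theorem den_odd (u : ℕ) : Odd (den u) := ⟨2 * (u + 1) ^ 2, by rw [den]; ring⟩

theorem den_inj : Function.Injective den := by
  intro u v h
  rw [den, den] at h
  have h1 : (u + 1) ^ 2 = (v + 1) ^ 2 := by omega
  have h2 : u + 1 = v + 1 := Nat.pow_left_injective (by norm_num) h1
  omega

/-- For every `N` there are `N` divisor classes `H i` with positive entries such that all multiples
`k H i` have the same Chern numbers, while the greatest common divisors `k m i` of their entries are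
different. -/
theorem exists_family4 (N : ℕ) : ∃ (m : Fin N → ℕ) (H : Fin N → Fin 4 → ℕ),
    Function.Injective m ∧ (∀ i, Odd (m i)) ∧ (∀ i, Pos (H i)) ∧ Coincide m H := by
  set L : ℕ := ∏ i : Fin N, den i with hL
  set m : Fin N → ℕ := fun i => ∏ j ∈ Finset.univ.erase i, den j with hm
  have hmL : ∀ i, m i * den i = L := fun i =>
    Finset.prod_erase_mul (Finset.univ : Finset (Fin N)) (fun j => den j) (Finset.mem_univ i)
  have hodd : ∀ i, Odd (m i) := fun i => Finset.prod_induction _ Odd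
    (fun a b ha hb => ha.mul hb) odd_one (fun j _ => den_odd j)
  have e : ∀ k i, (k • fun j => m i * vec i j) = fun j => (k * m i) * vec i j := by
    intro k i
    funext j
    rw [Pi.smul_apply, smul_eq_mul]
    ring
  have e2 : ∀ k i, k * m i * den i = k * L := fun k i => by rw [mul_assoc, hmL]
  have h1 : ∀ k i, c1sq (k • fun j => m i * vec i j) = 24 * ((k * L : ℕ) : ℚ) ^ 3 := by
    intro k i
    rw [c1sq_eq, e, s3_vec, e2]
    push_cast
    ring
  have h2 : ∀ k i, c2 (k • fun j => m i * vec i j) =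
      96 * ((k * L : ℕ) : ℚ) + 24 * ((k * L : ℕ) : ℚ) ^ 3 := by
    intro k i
    rw [c2_eq, e, s1_vec, s3_vec, e2]
    push_cast
    ring
  refine ⟨m, fun i j => m i * vec i j, ?_, hodd, ?_, fun k => ⟨fun i => ?_, fun i i' => ⟨?_, ?_⟩⟩⟩
  · intro i j hij
    have h1 := hmL i
    rw [hij, ← hmL j] at h1
    have h2 : den i = den j := Nat.eq_of_mul_eq_mul_left (hodd j).pos h1
    exact Fin.ext (den_inj h2)
  · intro i j
    exact Nat.mul_pos (hodd i).pos (vec_pos i j)
  · rw [e, content_mul, content_vec, mul_one]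
  · rw [h1, h1]
  · rw [h2, h2]

end Pool.Agent.Work.MP_671ba1_h54
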